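import Pool.Agent.H43.Sing.CSt

/-! # Singmaster, centre region: windows of length `L ^ (-η)` -/

namespace Pool.Agent.H43.Sing

open Metric Filter Topology

namespace WinA

lemma pow_sub_le {a b : ℂ} {Λ e : ℝ} (hΛ : 1 ≤ Λ) (ha : ‖a‖ ≤ Λ) (hb : ‖b‖ ≤ Λ)
    (he : ‖a - b‖ ≤ e) (k : ℕ) : ‖a ^ k - b ^ k‖ ≤ k * Λ ^ k * e := by
  have he0 : 0 ≤ e := (norm_nonneg _).trans he
  induction k with
  | zero => simp
  | succ k ih =>
    have h1 : a ^ (k + 1) - b ^ (k + 1) = a * (a ^ k - b ^ k) + (a - b) * b ^ k := by ring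
    rw [h1]
    refine (norm_add_le _ _).trans ?_
    rw [norm_mul, norm_mul, norm_pow]
    have h2 : ‖b‖ ^ k ≤ Λ ^ k := pow_le_pow_left₀ (norm_nonneg _) hb k
    have h3 : Λ ^ k ≤ Λ ^ (k + 1) := pow_le_pow_right₀ hΛ (Nat.le_succ k)
    have h4 : ‖a‖ * ‖a ^ k - b ^ k‖ ≤ Λ * (k * Λ ^ k * e) :=
      mul_le_mul ha ih (norm_nonneg _) (by linarith)
    have h5 : ‖a - b‖ * ‖b‖ ^ k ≤ e * Λ ^ (k + 1) :=
      mul_le_mul he (h2.trans h3) (by positivity) he0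
    push_cast
    calc _ ≤ Λ * (k * Λ ^ k * e) + e * Λ ^ (k + 1) := add_le_add h4 h5
      _ = _ := by ring

lemma G_bound {I : ℕ} (p : Fin I × Fin I → ℤ) {Pm Λ : ℝ} (hp : ∀ u, |(p u : ℝ)| ≤ Pm)
    (hPm : 0 ≤ Pm) {w z : ℂ} (hw : ‖w‖ ≤ 1) (hz : ‖z‖ ≤ Λ) (hΛ : 1 ≤ Λ) :
    ‖∑ u : Fin I × Fin I, (p u : ℂ) * w ^ (u.1 : ℕ) * z ^ ((u.1 : ℕ) + (u.2 : ℕ))‖ ≤
      (I : ℝ) ^ 2 * Pm * Λ ^ (2 * I) := by
  refine (norm_sum_le _ _).trans ?_
  have h1 : ∀ u ∈ (Finset.univ : Finset (Fin I × Fin I)),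
      ‖(p u : ℂ) * w ^ (u.1 : ℕ) * z ^ ((u.1 : ℕ) + (u.2 : ℕ))‖ ≤ Pm * Λ ^ (2 * I) := by
    intro u _
    rw [norm_mul, norm_mul, norm_pow, norm_pow]
    have h2 : ‖(p u : ℂ)‖ ≤ Pm := by
      rw [Complex.norm_intCast]; exact hp u
    have h3 : ‖w‖ ^ (u.1 : ℕ) ≤ 1 := pow_le_one₀ (norm_nonneg _) hw
    have h4 : ‖z‖ ^ ((u.1 : ℕ) + (u.2 : ℕ)) ≤ Λ ^ (2 * I) :=
      (pow_le_pow_left₀ (norm_nonneg _) hz _).trans
        (pow_le_pow_right₀ hΛ (by have := u.1.2; have := u.2.2; omega))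
    have h5 : ‖(p u : ℂ)‖ * ‖w‖ ^ (u.1 : ℕ) ≤ Pm :=
      (mul_le_mul h2 h3 (by positivity) hPm).trans (by rw [mul_one])
    exact mul_le_mul h5 h4 (by positivity) hPm
  refine (Finset.sum_le_sum h1).trans ?_
  rw [Finset.sum_const, nsmul_eq_mul]
  simp only [Finset.card_univ, Fintype.card_prod, Fintype.card_fin]
  push_cast
  apply le_of_eq; ring

lemma G_near {I : ℕ} (p : Fin I × Fin I → ℤ) {Pm Λ e : ℝ} (hp : ∀ u, |(p u : ℝ)| ≤ Pm)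
    (hPm : 0 ≤ Pm) {w z z' : ℂ} (hw : ‖w‖ ≤ 1) (hz : ‖z‖ ≤ Λ) (hz' : ‖z'‖ ≤ Λ) (hΛ : 1 ≤ Λ)
    (he : ‖z - z'‖ ≤ e) :
    ‖∑ u : Fin I × Fin I, (p u : ℂ) * w ^ (u.1 : ℕ) * z ^ ((u.1 : ℕ) + (u.2 : ℕ)) -
      ∑ u : Fin I × Fin I, (p u : ℂ) * w ^ (u.1 : ℕ) * z' ^ ((u.1 : ℕ) + (u.2 : ℕ))‖ ≤
      (I : ℝ) ^ 2 * Pm * (2 * I * Λ ^ (2 * I) * e) := by
  have he0 : 0 ≤ e := (norm_nonneg _).trans he
  rw [← Finset.sum_sub_distrib]
  refine (norm_sum_le _ _).trans ?_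
  have h1 : ∀ u ∈ (Finset.univ : Finset (Fin I × Fin I)),
      ‖(p u : ℂ) * w ^ (u.1 : ℕ) * z ^ ((u.1 : ℕ) + (u.2 : ℕ)) -
        (p u : ℂ) * w ^ (u.1 : ℕ) * z' ^ ((u.1 : ℕ) + (u.2 : ℕ))‖ ≤
        Pm * (2 * I * Λ ^ (2 * I) * e) := by
    intro u _
    rw [← mul_sub, norm_mul, norm_mul, norm_pow]
    have h2 : ‖(p u : ℂ)‖ ≤ Pm := by
      rw [Complex.norm_intCast]; exact hp u
    have h3 : ‖w‖ ^ (u.1 : ℕ) ≤ 1 := pow_le_one₀ (norm_nonneg _) hw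
    have hu : (u.1 : ℕ) + (u.2 : ℕ) ≤ 2 * I := by have := u.1.2; have := u.2.2; omega
    have hu' : (((u.1 : ℕ) + (u.2 : ℕ) : ℕ) : ℝ) ≤ 2 * I := by exact_mod_cast hu
    have h4 : ‖z ^ ((u.1 : ℕ) + (u.2 : ℕ)) - z' ^ ((u.1 : ℕ) + (u.2 : ℕ))‖
        ≤ 2 * I * Λ ^ (2 * I) * e := by
      refine (pow_sub_le hΛ hz hz' he _).trans ?_
      have h5 : Λ ^ ((u.1 : ℕ) + (u.2 : ℕ)) ≤ Λ ^ (2 * I) := pow_le_pow_right₀ hΛ hu
      gcongr
    have h5 : ‖(p u : ℂ)‖ * ‖w‖ ^ (u.1 : ℕ) ≤ Pm :=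
      (mul_le_mul h2 h3 (by positivity) hPm).trans (by rw [mul_one])
    exact mul_le_mul h5 h4 (by positivity) hPm
  refine (Finset.sum_le_sum h1).trans ?_
  rw [Finset.sum_const, nsmul_eq_mul]
  simp only [Finset.card_univ, Fintype.card_prod, Fintype.card_fin]
  push_cast
  apply le_of_eq; ring

lemma P_eq {I : ℕ} (p : Fin I × Fin I → ℤ) {m n : ℕ} (hn : 0 < n) :
    ((∑ u : Fin I × Fin I, p u * (m : ℤ) ^ (u.1 : ℕ) * (n : ℤ) ^ (u.2 : ℕ) : ℤ) : ℂ) =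
      ∑ u : Fin I × Fin I, (p u : ℂ) * (((m : ℝ) / n : ℝ) : ℂ) ^ (u.1 : ℕ) *
        (n : ℂ) ^ ((u.1 : ℕ) + (u.2 : ℕ)) := by
  push_cast
  refine Finset.sum_congr rfl fun u _ => ?_
  have hn' : (n : ℂ) ≠ 0 := by exact_mod_cast hn.ne'
  rw [pow_add, div_pow]
  field_simp

open Finset in
theorem sieg {α β : Type*} [Fintype α] [Fintype β] (A : Matrix α β ℤ) (B : ℝ) (hB : 1 ≤ B)
    (hA : ∀ i j, |(A i j : ℝ)| ≤ B) (hm : 2 * Fintype.card α ≤ Fintype.card β)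
    (h0 : 0 < Fintype.card α) :
    ∃ t : β → ℤ, t ≠ 0 ∧ (∀ i, ∑ j, A i j * t j = 0) ∧
      ∀ j, |(t j : ℝ)| ≤ Fintype.card β * B := by
  let _ := Matrix.seminormedAddCommGroup (m := α) (n := β) (α := ℤ)
  obtain ⟨t, ht0, ht1, ht2⟩ := Int.Matrix.exists_ne_zero_int_vec_norm_le A (by omega) h0
  refine ⟨t, ht0, fun i => ?_, fun j => ?_⟩
  · have := congrFun ht1 i
    simpa [Matrix.mulVec, dotProduct] using this
  · have hn : ‖A‖ ≤ B := by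
      rw [Matrix.norm_le_iff (by linarith)]
      intro i j
      rw [Int.norm_eq_abs]
      exact_mod_cast hA i j
    have hmax : max 1 ‖A‖ ≤ B := max_le hB hn
    have hc : (1 : ℝ) ≤ Fintype.card β := by
      have : 1 ≤ Fintype.card β := by omega
      exact_mod_cast this
    have h1 : (1 : ℝ) ≤ Fintype.card β * max 1 ‖A‖ :=
      one_le_mul_of_one_le_of_one_le hc (le_max_left _ _)
    have hexp : (Fintype.card α : ℝ) / (Fintype.card β - Fintype.card α) ≤ 1 := by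
      have h2 : (2 : ℝ) * Fintype.card α ≤ Fintype.card β := by exact_mod_cast hm
      have h3 : (0 : ℝ) < Fintype.card α := by exact_mod_cast h0
      rw [div_le_one (by linarith)]
      linarith
    have h4 : ‖t j‖ ≤ ‖t‖ := norm_le_pi_norm t j
    rw [Int.norm_eq_abs] at h4
    calc |(t j : ℝ)| ≤ ‖t‖ := by exact_mod_cast h4
      _ ≤ _ := ht2
      _ ≤ (Fintype.card β * max 1 ‖A‖) ^ (1 : ℝ) := Real.rpow_le_rpow_of_exponent_le h1 hexp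
      _ = Fintype.card β * max 1 ‖A‖ := Real.rpow_one _
      _ ≤ Fintype.card β * B := by gcongr

/-- the polynomial -/
theorem exists_poly {I : ℕ} (hI : 0 < I) (S : Finset (ℕ × ℕ)) (B : ℝ) (hB : 1 ≤ B)
    (hS : 2 * S.card ≤ I * I)
    (hb : ∀ q ∈ S, ∀ i < I, ∀ j < I, (q.1 : ℝ) ^ i * (q.2 : ℝ) ^ j ≤ B) :
    ∃ p : Fin I × Fin I → ℤ, p ≠ 0 ∧ (∀ u, |(p u : ℝ)| ≤ (I : ℝ) ^ 2 * B) ∧
      ∀ q ∈ S, ∑ u : Fin I × Fin I, p u * (q.1 : ℤ) ^ (u.1 : ℕ) * (q.2 : ℤ) ^ (u.2 : ℕ) = 0 := by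
  classical
  have hI1 : (1 : ℝ) ≤ (I : ℝ) := by exact_mod_cast hI
  have hD : (1 : ℝ) ≤ (I : ℝ) ^ 2 := one_le_pow₀ hI1
  rcases S.eq_empty_or_nonempty with rfl | hne
  · refine ⟨fun _ => 1, ?_, fun u => ?_, by simp⟩
    · intro h
      have := congrFun h (⟨0, hI⟩, ⟨0, hI⟩)
      simp at this
    · rw [Int.cast_one, abs_one]
      exact one_le_mul_of_one_le_of_one_le hD hB
  · let A : Matrix S (Fin I × Fin I) ℤ :=
      fun q u => ((q : ℕ × ℕ).1 : ℤ) ^ (u.1 : ℕ) * ((q : ℕ × ℕ).2 : ℤ) ^ (u.2 : ℕ)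
    obtain ⟨t, ht0, ht1, ht2⟩ := sieg A B hB (by
      rintro ⟨q, hq⟩ ⟨i, j⟩
      have := hb q hq i i.2 j j.2
      rw [abs_of_nonneg (by positivity)]
      simpa [A] using this) (by simpa using hS) (by simpa using hne.card_pos)
    refine ⟨t, ht0, ?_, ?_⟩
    · intro u
      have h1 := ht2 u
      rw [Fintype.card_prod, Fintype.card_fin] at h1
      push_cast at h1
      rw [pow_two]
      exact h1
    · intro q hq
      have h1 := ht1 ⟨q, hq⟩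
      rw [← h1]
      refine Finset.sum_congr rfl fun u _ => ?_
      simp only [A]
      ring

/-- eventual smallness of `K * L ^ a / L ^ b` -/
lemma ev_small {a b : ℕ} (hab : a < b) (K : ℝ) {δ : ℝ} (hδ : 0 < δ) :
    ∀ᶠ L : ℝ in atTop, K * (L ^ a / L ^ b) < δ := by
  have h1 : Tendsto (fun L : ℝ => K * (L ^ a / L ^ b)) atTop (𝓝 (K * 0)) :=
    (tendsto_pow_div_pow_atTop_zero hab).const_mul K
  rw [mul_zero] at h1
  exact h1.eventually (gt_mem_nhds hδ)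

lemma ev_rpow {s : ℝ} (hs : s < 0) (K : ℝ) {δ : ℝ} (hδ : 0 < δ) :
    ∀ᶠ L : ℝ in atTop, K * L ^ s < δ := by
  have h0 : Tendsto (fun L : ℝ => L ^ (-(-s))) atTop (𝓝 0) :=
    tendsto_rpow_neg_atTop (by linarith)
  rw [neg_neg] at h0
  have h1 : Tendsto (fun L : ℝ => K * L ^ s) atTop (𝓝 (K * 0)) := h0.const_mul K
  rw [mul_zero] at h1
  exact h1.eventually (gt_mem_nhds hδ)

end WinA

open WinA

theorem win (H : CIterSt) : CWinSt := by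
  classical
  intro x0 η hx0 hx1 hη
  obtain ⟨R, C0, hR, hR1, hR2, hC0, HA⟩ := H x0 hx0 hx1
  -- parameters
  obtain ⟨k, hk⟩ := exists_nat_ge (10 / η)
  set I : ℕ := 2 * (k + 1) with hIdef
  set U : ℕ := 2 * (k + 1) ^ 2 with hUdef
  have hI0 : 0 < I := by omega
  have hUI : 2 * U = I * I := by rw [hIdef, hUdef]; ring
  have hηI : 10 ≤ η * I := by
    rw [div_le_iff₀ hη] at hk
    rw [hIdef]
    push_cast
    nlinarith
  have hIR : (1 : ℝ) ≤ (I : ℝ) := by exact_mod_cast hI0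
  have hηU : 4 * (I : ℝ) - η * U < 0 := by
    have h1 : 2 * (U : ℝ) = I * I := by exact_mod_cast hUI
    nlinarith
  set A : ℕ := 4 * I + 2 * U + 10 with hAdef
  obtain ⟨C, L1, hC, hL1, HL⟩ := HA A
  -- the error at the nodes
  set ε : ℝ → ℝ := fun L => (I : ℝ) ^ 2 * ((I : ℝ) ^ 2 * (C0 * L) ^ (2 * I)) *
    (2 * I * (C0 * L) ^ (2 * I) * (C / L ^ A)) with hε
  have ev1 : ∀ᶠ L : ℝ in atTop, 16 / R * L ^ (-η) < 1 := ev_rpow (by linarith) _ one_pos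
  have ev2 : ∀ᶠ L : ℝ in atTop, 2 * C * (L ^ 0 / L ^ A) < 1 := ev_small (by omega) _ one_pos
  have ev3 : ∀ᶠ L : ℝ in atTop, ((I : ℝ) ^ 4 * C0 ^ (4 * I) * (16 / R) ^ U) *
      L ^ (4 * (I : ℝ) - η * U) < 1 / 4 := ev_rpow hηU _ (by norm_num)
  have ev4 : ∀ᶠ L : ℝ in atTop, (U * ((I : ℝ) ^ 4 * (2 * I) * C0 ^ (4 * I) * C) *
      ((R / 2) * C0 ^ 2) ^ U) * (L ^ (4 * I + 2 * U) / L ^ A) < 1 / 8 :=
    ev_small (by omega) _ (by norm_num)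
  have ev5 : ∀ᶠ L : ℝ in atTop, ((I : ℝ) ^ 4 * (2 * I) * C0 ^ (4 * I) * C) *
      (L ^ (4 * I) / L ^ A) < 1 / 4 :=
    ev_small (by omega) _ (by norm_num)
  have ev6 : ∀ᶠ L : ℝ in atTop, 2 / R * (L ^ 0 / L ^ 2) < 1 := ev_small (by norm_num) _ one_pos
  obtain ⟨L2, hL2⟩ := eventually_atTop.1 (ev1.and (ev2.and (ev3.and (ev4.and (ev5.and ev6)))))
  refine ⟨I, R / 4, max L1 L2, by positivity, hL1.trans (le_max_left _ _), ?_⟩
  intro t c S hLt hc hS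
  set L : ℝ := Real.log t with hLdef
  have hLL1 : L1 ≤ L := (le_max_left _ _).trans hLt
  have hL1' : 1 ≤ L := hL1.trans hLL1
  have hL0 : 0 < L := by linarith
  obtain ⟨e1, e2, e3, e4, e5, e6⟩ := hL2 L ((le_max_right _ _).trans hLt)
  obtain ⟨N, hN1, hN2, -, hN3⟩ := HL L hLL1
  set Λ : ℝ := C0 * L with hΛdef
  have hΛ : 1 ≤ Λ := one_le_mul_of_one_le_of_one_le hC0 hL1'
  have hΛ0 : 0 < Λ := by linarith
  have hLA : 0 < L ^ A := by positivity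
  set e : ℝ := C / L ^ A with hedef
  have he0 : 0 ≤ e := by positivity
  have he2 : 2 * e < 1 := by
    have h1 : 2 * C * (L ^ 0 / L ^ A) = 2 * e := by rw [hedef]; ring
    rwa [h1] at e2
  set d : ℝ := L ^ (-η) with hddef
  have hd0 : 0 ≤ d := by positivity
  have hd : d ≤ (R / 4) / 4 := by
    have h1 : 16 * d < R := by
      rw [div_mul_eq_mul_div, div_lt_one hR] at e1
      exact e1
    linarith
  have hεL : ε L = ((I : ℝ) ^ 4 * (2 * I) * C0 ^ (4 * I) * C) * (L ^ (4 * I) / L ^ A) := by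
    have h1 : C0 ^ (4 * I) = C0 ^ (2 * I) * C0 ^ (2 * I) := by rw [← pow_add]; congr 1; ring
    have h2 : L ^ (4 * I) = L ^ (2 * I) * L ^ (2 * I) := by rw [← pow_add]; congr 1; ring
    rw [hε, h1, h2]
    simp only [mul_pow]
    field_simp
  have hεL0 : 0 ≤ ε L := by rw [hεL]; positivity
  -- facts on solutions
  have hsol : ∀ q ∈ S, 1 ≤ q.1 ∧ q.1 < q.2 ∧ |(q.1 : ℝ) / q.2 - c| ≤ d ∧
      ‖N (((q.1 : ℝ) / q.2 : ℝ) : ℂ) - (q.2 : ℂ)‖ ≤ e ∧ (q.2 : ℝ) ≤ Λ := by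
    intro q hq
    obtain ⟨h1, h2, h3, h4⟩ := hS q hq
    have h5 : |(q.1 : ℝ) / q.2 - x0| < R := by
      have : |(q.1 : ℝ) / q.2 - x0| ≤ |(q.1 : ℝ) / q.2 - c| + |c - x0| := abs_sub_le _ _ _
      linarith
    have h6 := hN3 q.1 q.2 h1 h2 h5 (by rw [h3])
    exact ⟨h1, h2, h4, h6.1, h6.2⟩
  -- choice of the interpolation set
  obtain ⟨S', hS'S, hS'U, hS'⟩ : ∃ S' ⊆ S, S'.card ≤ U ∧ (S' = S ∨ S'.card = U) := by
    by_cases h : S.card ≤ U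
    · exact ⟨S, Finset.Subset.refl _, h, Or.inl rfl⟩
    · obtain ⟨S', h1, h2⟩ := Finset.exists_subset_card_eq (s := S) (n := U) (by omega)
      exact ⟨S', h1, h2.le, Or.inr h2⟩
  have hbound : ∀ q ∈ S', ∀ i < I, ∀ j < I, (q.1 : ℝ) ^ i * (q.2 : ℝ) ^ j ≤ Λ ^ (2 * I) := by
    intro q hq i hi j hj
    obtain ⟨h1, h2, h3, h4, h5⟩ := hsol q (hS'S hq)
    have h6 : (q.1 : ℝ) ≤ Λ := by
      have : (q.1 : ℝ) ≤ q.2 := by exact_mod_cast h2.le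
      linarith
    calc (q.1 : ℝ) ^ i * (q.2 : ℝ) ^ j ≤ Λ ^ i * Λ ^ j := by gcongr
      _ = Λ ^ (i + j) := (pow_add _ _ _).symm
      _ ≤ Λ ^ (2 * I) := pow_le_pow_right₀ hΛ (by omega)
  obtain ⟨p, hp0, hpb, hpS⟩ := exists_poly hI0 S' (Λ ^ (2 * I)) (one_le_pow₀ hΛ) (by omega) hbound
  refine ⟨p, hp0, ?_⟩
  rcases hS' with rfl | hcard
  · exact hpS
  -- the remaining case
  set Pm : ℝ := (I : ℝ) ^ 2 * Λ ^ (2 * I) with hPm
  have hPm0 : 0 ≤ Pm := by positivity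
  set G : ℂ → ℂ := fun w =>
    ∑ u : Fin I × Fin I, (p u : ℂ) * w ^ (u.1 : ℕ) * (N w) ^ ((u.1 : ℕ) + (u.2 : ℕ)) with hG
  have hball : ∀ w : ℂ, dist w (c : ℂ) < 2 * (R / 4) → w ∈ ball (x0 : ℂ) R := by
    intro w hw
    rw [mem_ball]
    have h1 : dist w (x0 : ℂ) ≤ dist w (c : ℂ) + dist (c : ℂ) (x0 : ℂ) := dist_triangle _ _ _
    have h2 : dist (c : ℂ) (x0 : ℂ) = |c - x0| := by
      rw [Complex.dist_eq, ← Complex.ofReal_sub, Complex.norm_real, Real.norm_eq_abs]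
    linarith
  have hball1 : ∀ w : ℂ, dist w (c : ℂ) < 2 * (R / 4) → ‖w‖ ≤ 1 := by
    intro w hw
    have h1 := hball w hw
    rw [mem_ball, dist_eq_norm] at h1
    have h2 : ‖w‖ ≤ ‖w - (x0 : ℂ)‖ + ‖(x0 : ℂ)‖ := by
      simpa using norm_add_le (w - (x0 : ℂ)) (x0 : ℂ)
    have h3 : ‖(x0 : ℂ)‖ = x0 := by
      rw [Complex.norm_real, Real.norm_eq_abs, abs_of_pos hx0]
    linarith
  have hGd : DifferentiableOn ℂ G (ball (c : ℂ) (2 * (R / 4))) := by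
    have hN' : DifferentiableOn ℂ N (ball (c : ℂ) (2 * (R / 4))) :=
      hN1.mono fun w hw => hball w (mem_ball.1 hw)
    rw [hG]
    apply DifferentiableOn.fun_sum
    intro u _
    exact ((differentiableOn_const _).mul (differentiableOn_id.pow _)).mul (hN'.pow _)
  have hGB : ∀ w : ℂ, dist w (c : ℂ) ≤ R / 4 → ‖G w‖ ≤ (I : ℝ) ^ 2 * Pm * Λ ^ (2 * I) := by
    intro w hw
    have h1 : dist w (c : ℂ) < 2 * (R / 4) := by linarith
    exact G_bound p hpb hPm0 (hball1 w h1) (hN2 w (hball w h1)) hΛ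
  -- nodes
  set ν : ℕ × ℕ → ℂ := fun q => (((q.1 : ℝ) / q.2 : ℝ) : ℂ) with hν
  have hνd : ∀ q ∈ S, dist (ν q) (c : ℂ) ≤ d := by
    intro q hq
    obtain ⟨h1, h2, h3, h4, h5⟩ := hsol q hq
    rw [hν, Complex.dist_eq]
    simp only
    rw [← Complex.ofReal_sub, Complex.norm_real, Real.norm_eq_abs]
    exact h3
  have hνG : ∀ q ∈ S, ‖G (ν q) -
      ((∑ u : Fin I × Fin I, p u * (q.1 : ℤ) ^ (u.1 : ℕ) * (q.2 : ℤ) ^ (u.2 : ℕ) : ℤ) : ℂ)‖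
        ≤ ε L := by
    intro q hq
    obtain ⟨h1, h2, h3, h4, h5⟩ := hsol q hq
    rw [P_eq p (by omega : 0 < q.2)]
    have h6 := hνd q hq
    have h7 : dist (ν q) (c : ℂ) < 2 * (R / 4) := by linarith
    have h8 := G_near p (w := ν q) (z := N (ν q)) (z' := (q.2 : ℂ)) (e := e) hpb hPm0
      (hball1 _ h7) (hN2 _ (hball _ h7)) (by rw [Complex.norm_natCast]; exact h5) hΛ h4
    exact h8
  have hinj : ∀ q ∈ S, ∀ q' ∈ S, ν q = ν q' → q = q' := by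
    intro q hq q' hq' hqq
    obtain ⟨h1, h2, h3, h4, h5⟩ := hsol q hq
    obtain ⟨h1', h2', h3', h4', h5'⟩ := hsol q' hq'
    have h6 : ‖(q.2 : ℂ) - (q'.2 : ℂ)‖ ≤ 2 * e := by
      have h7 : (q.2 : ℂ) - (q'.2 : ℂ) = (N (ν q') - (q'.2 : ℂ)) - (N (ν q) - (q.2 : ℂ)) := by
        rw [hqq]; ring
      rw [h7]
      refine (norm_sub_le _ _).trans ?_
      have : ‖N (ν q') - (q'.2 : ℂ)‖ ≤ e := h4'
      have : ‖N (ν q) - (q.2 : ℂ)‖ ≤ e := h4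
      linarith
    have h8 : ((((q.2 : ℤ) - (q'.2 : ℤ) : ℤ)) : ℂ) = (q.2 : ℂ) - (q'.2 : ℂ) := by push_cast; ring
    rw [← h8, Complex.norm_intCast] at h6
    have h9 : |((((q.2 : ℤ) - (q'.2 : ℤ) : ℤ)) : ℝ)| < 1 := by linarith
    have h10 : |(q.2 : ℤ) - (q'.2 : ℤ)| < 1 := by exact_mod_cast h9
    have h11 : (q.2 : ℤ) - (q'.2 : ℤ) = 0 := Int.abs_lt_one_iff.1 h10
    have h12 : q.2 = q'.2 := by omega
    have h13 : (q.1 : ℝ) / q.2 = (q'.1 : ℝ) / q'.2 := by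
      have := hqq
      simp only [hν] at this
      exact_mod_cast this
    rw [h12] at h13
    have h14 : (0 : ℝ) < q'.2 := by
      have : 0 < q'.2 := by omega
      exact_mod_cast this
    rw [div_left_inj' h14.ne'] at h13
    have h15 : q.1 = q'.1 := by exact_mod_cast h13
    exact Prod.ext h15 h12
  have hsep : ∀ q ∈ S, ∀ q' ∈ S, ν q ≠ ν q' → 1 / Λ ^ 2 ≤ dist (ν q) (ν q') := by
    intro q hq q' hq' hqq
    obtain ⟨h1, h2, h3, h4, h5⟩ := hsol q hq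
    obtain ⟨h1', h2', h3', h4', h5'⟩ := hsol q' hq'
    have hq0 : (0 : ℝ) < q.2 := by
      have : 0 < q.2 := by omega
      exact_mod_cast this
    have hq0' : (0 : ℝ) < q'.2 := by
      have : 0 < q'.2 := by omega
      exact_mod_cast this
    have h6 : dist (ν q) (ν q') = |(q.1 : ℝ) / q.2 - (q'.1 : ℝ) / q'.2| := by
      rw [hν, Complex.dist_eq]
      simp only
      rw [← Complex.ofReal_sub, Complex.norm_real, Real.norm_eq_abs]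
    have h7 : (q.1 : ℝ) / q.2 - (q'.1 : ℝ) / q'.2 =
        ((((q.1 : ℤ) * q'.2 - (q'.1 : ℤ) * q.2 : ℤ)) : ℝ) / (q.2 * q'.2) := by
      push_cast
      field_simp
    have h8 : ((q.1 : ℤ) * q'.2 - (q'.1 : ℤ) * q.2 : ℤ) ≠ 0 := by
      intro h
      apply hqq
      simp only [hν]
      have h9 : (q.1 : ℝ) / q.2 - (q'.1 : ℝ) / q'.2 = 0 := by rw [h7, h]; simp
      have h10 : (q.1 : ℝ) / q.2 = (q'.1 : ℝ) / q'.2 := by linarith
      rw [h10]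
    have h9 : (1 : ℝ) ≤ |((((q.1 : ℤ) * q'.2 - (q'.1 : ℤ) * q.2 : ℤ)) : ℝ)| := by
      have := Int.one_le_abs h8
      exact_mod_cast this
    rw [h6, h7, abs_div, abs_of_pos (mul_pos hq0 hq0')]
    have h10 : (q.2 : ℝ) * q'.2 ≤ Λ ^ 2 := by
      rw [pow_two]
      exact mul_le_mul h5 h5' hq0'.le hΛ0.le
    exact div_le_div₀ (by positivity) h9 (mul_pos hq0 hq0') h10
  set s : Finset ℂ := S'.image ν with hs
  have hscard : s.card = U := by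
    rw [hs, Finset.card_image_of_injOn, hcard]
    intro q hq q' hq' h
    exact hinj q (hS'S hq) q' (hS'S hq') h
  have hσ : 1 / Λ ^ 2 ≤ 2 * (R / 4) := by
    have h1 : 2 / R * (L ^ 0 / L ^ 2) = 2 / (R * L ^ 2) := by
      rw [pow_zero, div_mul_div_comm, mul_one]
    rw [h1, div_lt_one (by positivity)] at e6
    have h2 : L ^ 2 ≤ Λ ^ 2 := by
      apply pow_le_pow_left₀ hL0.le
      rw [hΛdef]
      nlinarith
    rw [div_le_iff₀ (by positivity)]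
    nlinarith
  have hmain : ∀ q ∈ S, ‖G (ν q)‖ ≤ ((I : ℝ) ^ 2 * Pm * Λ ^ (2 * I) +
      U * ε L * (2 * (R / 4) / (1 / Λ ^ 2)) ^ U) * (4 * d / (R / 4)) ^ U +
      U * ε L * (2 * (R / 4) / (1 / Λ ^ 2)) ^ U := by
    intro q hq
    have := schwarz_approx (c := (c : ℂ)) (r := R / 4) (d := d)
      (B := (I : ℝ) ^ 2 * Pm * Λ ^ (2 * I)) (ε := ε L) (σ := 1 / Λ ^ 2) (by positivity) hd hGd s
      (by
        intro w hw
        obtain ⟨q', hq', rfl⟩ := Finset.mem_image.1 hw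
        exact hνd q' (hS'S hq')) hεL0 (by positivity) hσ
      (by
        intro a ha b hb hab
        obtain ⟨q', hq', rfl⟩ := Finset.mem_image.1 ha
        obtain ⟨q'', hq'', rfl⟩ := Finset.mem_image.1 hb
        exact hsep q' (hS'S hq') q'' (hS'S hq'') hab)
      (by
        intro w hw
        obtain ⟨q', hq', rfl⟩ := Finset.mem_image.1 hw
        have h1 := hνG q' (hS'S hq')
        rw [hpS q' hq'] at h1
        simpa using h1) hGB (ν q) (hνd q hq)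
    rw [hscard] at this
    exact this
  -- numerical estimates
  set E : ℝ := U * ε L * (2 * (R / 4) / (1 / Λ ^ 2)) ^ U with hE
  have hE0 : 0 ≤ E := by positivity
  have hE1 : E < 1 / 8 := by
    have h1 : 2 * (R / 4) / (1 / Λ ^ 2) = ((R / 2) * C0 ^ 2) * L ^ 2 := by
      rw [hΛdef]
      field_simp
      ring
    have h2 : E = (U * ((I : ℝ) ^ 4 * (2 * I) * C0 ^ (4 * I) * C) *
      ((R / 2) * C0 ^ 2) ^ U) * (L ^ (4 * I + 2 * U) / L ^ A) := by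
      rw [hE, h1, hεL, mul_pow (R / 2 * C0 ^ 2) (L ^ 2) U, ← pow_mul, pow_add L (4 * I) (2 * U)]
      ring
    rw [h2]
    exact e4
  have hT1 : (I : ℝ) ^ 2 * Pm * Λ ^ (2 * I) * (4 * d / (R / 4)) ^ U < 1 / 4 := by
    have h1 : 4 * d / (R / 4) = (16 / R) * d := by
      field_simp
      ring
    have h2 : d ^ U = L ^ (-(η * U)) := by
      rw [hddef, ← Real.rpow_natCast, ← Real.rpow_mul hL0.le]
      congr 1
      ring
    have h3 : L ^ (4 * (I : ℝ) - η * U) = L ^ (4 * I) * L ^ (-(η * U)) := by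
      rw [sub_eq_add_neg, Real.rpow_add hL0]
      congr 1
      rw [← Real.rpow_natCast]
      push_cast
      rfl
    rw [h3] at e3
    rw [h1, mul_pow (16 / R) d U, h2, hPm, hΛdef]
    have h4 : (I : ℝ) ^ 2 * ((I : ℝ) ^ 2 * (C0 * L) ^ (2 * I)) * (C0 * L) ^ (2 * I) *
        ((16 / R) ^ U * L ^ (-(η * U))) = (I : ℝ) ^ 4 * C0 ^ (4 * I) * (16 / R) ^ U *
        (L ^ (4 * I) * L ^ (-(η * U))) := by
      have h5 : (C0 * L) ^ (4 * I) = (C0 * L) ^ (2 * I) * (C0 * L) ^ (2 * I) := by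
        rw [← pow_add]; congr 1; ring
      have h6 : C0 ^ (4 * I) * L ^ (4 * I) = (C0 * L) ^ (2 * I) * (C0 * L) ^ (2 * I) := by
        rw [← mul_pow, h5]
      calc _ = (I : ℝ) ^ 4 * ((C0 * L) ^ (2 * I) * (C0 * L) ^ (2 * I)) *
            ((16 / R) ^ U * L ^ (-(η * U))) := by ring
        _ = (I : ℝ) ^ 4 * (C0 ^ (4 * I) * L ^ (4 * I)) *
            ((16 / R) ^ U * L ^ (-(η * U))) := by rw [h6]
        _ = _ := by ring
    rw [h4]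
    exact e3
  have hd1 : (4 * d / (R / 4)) ^ U ≤ 1 := by
    apply pow_le_one₀ (by positivity)
    rw [div_le_one (by positivity)]
    linarith
  have hd1' : 0 ≤ (4 * d / (R / 4)) ^ U := by positivity
  intro q hq
  have h1 := hmain q hq
  have h2 := hνG q hq
  have h3 : ε L < 1 / 4 := by rw [hεL]; exact e5
  have h4 : E * (4 * d / (R / 4)) ^ U ≤ E := mul_le_of_le_one_right hE0 hd1
  set P : ℤ := ∑ u : Fin I × Fin I, p u * (q.1 : ℤ) ^ (u.1 : ℕ) * (q.2 : ℤ) ^ (u.2 : ℕ) with hP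
  have h5 : ‖(P : ℂ)‖ ≤ ‖G (ν q)‖ + ‖G (ν q) - (P : ℂ)‖ := by
    have h6 : (P : ℂ) = G (ν q) - (G (ν q) - (P : ℂ)) := by ring
    calc ‖(P : ℂ)‖ = ‖G (ν q) - (G (ν q) - (P : ℂ))‖ := by rw [← h6]
      _ ≤ _ := norm_sub_le _ _
  rw [Complex.norm_intCast] at h5
  have h6 : |(P : ℝ)| < 1 := by
    have h7 : ((I : ℝ) ^ 2 * Pm * Λ ^ (2 * I) + E) * (4 * d / (R / 4)) ^ U =
      (I : ℝ) ^ 2 * Pm * Λ ^ (2 * I) * (4 * d / (R / 4)) ^ U + E * (4 * d / (R / 4)) ^ U := by ring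
    rw [h7] at h1
    linarith
  have h7 : |P| < 1 := by exact_mod_cast h6
  exact Int.abs_lt_one_iff.1 h7

end Pool.Agent.H43.Sing
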